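import Mathlib

/-!
The club filter on countable subsets of a big type, generic filters, and the filter `gen P` of
pairs `(N, G)` with `N` in a club and `G` generic over `N`.
-/

open Filter Set

namespace Pool.Agent.Lib.Helper87

universe v

/-- the universe of all objects we talk about -/
def Univ : Type 2 := Σ T : Type 1, T

instance : Inhabited Univ := ⟨⟨PUnit, PUnit.unit⟩⟩

/-- the embedding of a small type into `Univ` -/
noncomputable def emb {T : Type v} [Small.{1} T] (a : T) : Univ :=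
  ⟨Shrink.{1} T, equivShrink T a⟩

theorem emb_inj {T : Type v} [Small.{1} T] : Function.Injective (emb : T → Univ) := by
  intro a b h
  have := eq_of_heq (Sigma.mk.inj h).2
  exact (equivShrink T).injective this

/-- `N` is closed under `F` -/
def ClosedUnder (F : List Univ → ℕ → Univ) (N : Set Univ) : Prop :=
  ∀ l : List Univ, (∀ x ∈ l, x ∈ N) → ∀ n, F l n ∈ N

/-- the club filter -/
def club : Filter (Set Univ) where
  sets := {A | ∃ F, ∀ N : Set Univ, N.Countable → ClosedUnder F N → N ∈ A}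
  univ_sets := ⟨fun _ _ => default, fun _ _ _ => mem_univ _⟩
  sets_of_superset := fun ⟨F, hF⟩ h => ⟨F, fun N h1 h2 => h (hF N h1 h2)⟩
  inter_sets := fun ⟨F, hF⟩ ⟨F', hF'⟩ =>
    ⟨fun l n => if n % 2 = 0 then F l (n / 2) else F' l (n / 2), fun N h1 h2 =>
      ⟨hF N h1 fun l hl n => by
        have := h2 l hl (2 * n)
        simpa using this,
       hF' N h1 fun l hl n => by
        have := h2 l hl (2 * n + 1)
        have e1 : (2 * n + 1) % 2 = 1 := by omega
        have e2 : (2 * n + 1) / 2 = n := by omega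
        simpa [e1, e2] using this⟩⟩

theorem ev_club_iff {Φ : Set Univ → Prop} :
    (∀ᶠ N in club, Φ N) ↔ ∃ F, ∀ N : Set Univ, N.Countable → ClosedUnder F N → Φ N := Iff.rfl

theorem countable_lists {S : Set Univ} (h : S.Countable) :
    {l : List Univ | ∀ x ∈ l, x ∈ S}.Countable := by
  have := h.to_subtype
  refine (countable_range (fun l : List S => l.map Subtype.val)).mono fun l hl => ?_
  exact ⟨l.attach.map fun x => ⟨x.1, hl x.1 x.2⟩, by simp⟩

theorem exists_closed (F : List Univ → ℕ → Univ) : ∃ N : Set Univ, N.Countable ∧ ClosedUnder F N := by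
  let S : ℕ → Set Univ := fun k => Nat.rec ∅
    (fun _ A => A ∪ ⋃ l ∈ {l : List Univ | ∀ x ∈ l, x ∈ A}, range (F l)) k
  have hS : ∀ k, S (k + 1) = S k ∪ ⋃ l ∈ {l : List Univ | ∀ x ∈ l, x ∈ S k}, range (F l) :=
    fun k => rfl
  have hc : ∀ k, (S k).Countable := by
    intro k
    induction k with
    | zero => exact countable_empty
    | succ k ih =>
      rw [hS]
      exact ih.union (Countable.biUnion (countable_lists ih) fun l _ => countable_range _)
  have hm : Monotone S := monotone_nat_of_le_succ fun k => by rw [hS]; exact subset_union_left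
  refine ⟨⋃ k, S k, countable_iUnion hc, fun l hl n => ?_⟩
  have : ∃ k, ∀ x ∈ l, x ∈ S k := by
    induction l with
    | nil => exact ⟨0, by simp⟩
    | cons a l ih =>
      obtain ⟨k, hk⟩ := ih fun x hx => hl x (List.mem_cons_of_mem _ hx)
      obtain ⟨j, hj⟩ := mem_iUnion.1 (hl a List.mem_cons_self)
      refine ⟨max k j, fun x hx => ?_⟩
      rcases List.mem_cons.1 hx with rfl | hx
      · exact hm (le_max_right _ _) hj
      · exact hm (le_max_left _ _) (hk x hx)
  obtain ⟨k, hk⟩ := this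
  refine mem_iUnion.2 ⟨k + 1, ?_⟩
  rw [hS]
  exact Or.inr (mem_biUnion hk (mem_range_self n))

instance club_neBot : club.NeBot := by
  refine Filter.forall_mem_nonempty_iff_neBot.1 fun A ⟨F, hF⟩ => ?_
  obtain ⟨N, h1, h2⟩ := exists_closed F
  exact ⟨N, hF N h1 h2⟩

theorem club_countable : ∀ᶠ N in club, N.Countable :=
  ⟨fun _ _ => default, fun _ h _ => h⟩

theorem club_const {T : Type v} [Small.{1} T] (a : T) : ∀ᶠ N in club, emb a ∈ N :=
  ⟨fun _ _ => emb a, fun _ _ h => h [] (by simp) 0⟩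

/-- normality of the club filter -/
theorem club_all {T : Type v} [Small.{1} T] {Φ : T → Set Univ → Prop}
    (h : ∀ a, ∀ᶠ N in club, Φ a N) : ∀ᶠ N in club, ∀ a, emb a ∈ N → Φ a N := by
  classical
  choose F hF using h
  refine ⟨fun l n => match l with
    | [] => default
    | x :: l => if h : ∃ a : T, emb a = x then F h.choose l n else default, fun N h1 h2 a ha => ?_⟩
  refine hF a N h1 fun l hl n => ?_
  have := h2 (emb a :: l) (by
    intro x hx
    rcases List.mem_cons.1 hx with rfl | hx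
    exacts [ha, hl x hx]) n
  have hex : ∃ b : T, emb b = emb a := ⟨a, rfl⟩
  simp only [hex, dif_pos] at this
  rwa [emb_inj hex.choose_spec] at this

theorem club_countable_type (T : Type v) [Small.{1} T] [Countable T] :
    ∀ᶠ N in club, ∀ a : T, emb a ∈ N := by
  rcases isEmpty_or_nonempty T with h | h
  · exact Eventually.of_forall fun N a => isEmptyElim a
  · obtain ⟨f, hf⟩ := exists_surjective_nat T
    refine ⟨fun _ n => emb (f n), fun N _ h a => ?_⟩
    obtain ⟨n, rfl⟩ := hf a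
    exact h [] (by simp) n

theorem countable_emb_mem {T : Type v} [Small.{1} T] {N : Set Univ} (h : N.Countable) :
    {a : T | emb a ∈ N}.Countable :=
  h.preimage_of_injOn emb_inj.injOn

/-- a countable set `N` together with a filter `G` -/
structure World (P : Type) : Type 2 where
  N : Set Univ
  G : Set P

variable {P : Type}

/-- the object `a` belongs to `N` -/
def World.In (w : World P) {T : Type v} [Small.{1} T] (a : T) : Prop := emb a ∈ w.N

variable [Preorder P]

/-- `G` is a filter which is generic over `N` -/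
structure World.Generic (w : World P) : Prop where
  mem : ∀ p ∈ w.G, w.In p
  dir : ∀ p ∈ w.G, ∀ q ∈ w.G, ∃ r ∈ w.G, r ≤ p ∧ r ≤ q
  meet : ∀ D : Set P, w.In D → (∀ p, ∃ q ∈ D, q ≤ p) → ∃ p ∈ w.G, p ∈ D

variable (P) in
/-- for club many `N` and all generic `G` -/
def gen : Filter (World P) where
  sets := {S | ∀ᶠ N in club, ∀ G, (World.mk N G).Generic → World.mk N G ∈ S}
  univ_sets := by
    rw [mem_ofPred_eq]
    exact Eventually.of_forall fun _ _ _ => mem_univ _
  sets_of_superset := fun h h' => by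
    rw [mem_ofPred_eq] at h ⊢
    exact h.mono fun _ hN G hG => h' (hN G hG)
  inter_sets := fun h h' => by
    rw [mem_ofPred_eq] at h h' ⊢
    exact (h.and h').mono fun _ hN G hG => ⟨hN.1 G hG, hN.2 G hG⟩

theorem ev_gen_iff {Φ : World P → Prop} :
    (∀ᶠ w in gen P, Φ w) ↔ ∀ᶠ N in club, ∀ G, (World.mk N G).Generic → Φ ⟨N, G⟩ := Iff.rfl

theorem ev_generic : ∀ᶠ w in gen P, w.Generic :=
  ev_gen_iff.2 (Eventually.of_forall fun _ _ h => h)

theorem ev_of_club {Φ : Set Univ → Prop} (h : ∀ᶠ N in club, Φ N) : ∀ᶠ w in gen P, Φ w.N :=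
  ev_gen_iff.2 (h.mono fun _ hN _ _ => hN)

theorem ev_const {T : Type v} [Small.{1} T] (a : T) : ∀ᶠ w in gen P, w.In a :=
  ev_of_club (club_const a)

theorem ev_all {T : Type v} [Small.{1} T] {Φ : T → World P → Prop}
    (h : ∀ a, ∀ᶠ w in gen P, Φ a w) : ∀ᶠ w in gen P, ∀ a, w.In a → Φ a w :=
  ev_gen_iff.2 ((club_all (Φ := fun a N => ∀ G, (World.mk N G).Generic → Φ a ⟨N, G⟩)
    fun a => ev_gen_iff.1 (h a)).mono
    fun _ hN G hG a ha => hN a ha G hG)

theorem ev_ctype (T : Type v) [Small.{1} T] [Countable T] : ∀ᶠ w in gen P, ∀ a : T, w.In a :=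
  ev_of_club (club_countable_type T)

theorem ev_call {T : Type v} [Small.{1} T] [Countable T] {Φ : T → World P → Prop}
    (h : ∀ a, ∀ᶠ w in gen P, Φ a w) : ∀ᶠ w in gen P, ∀ a, Φ a w := by
  filter_upwards [ev_all h, ev_ctype T] with w h1 h2 a using h1 a (h2 a)

/-- implications with a hypothesis not depending on the world -/
theorem ev_imp {A : Prop} {Φ : World P → Prop} (h : A → ∀ᶠ w in gen P, Φ w) :
    ∀ᶠ w in gen P, A → Φ w := by
  by_cases hA : A
  · exact (h hA).mono fun _ hw _ => hw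
  · exact Eventually.of_forall fun _ h' => absurd h' hA

theorem ev_dimp {A : Prop} {Φ : A → World P → Prop} (h : ∀ a : A, ∀ᶠ w in gen P, Φ a w) :
    ∀ᶠ w in gen P, ∀ a : A, Φ a w := by
  by_cases hA : A
  · exact (h hA).mono fun _ hw _ => hw
  · exact Eventually.of_forall fun _ h' => absurd h' hA

theorem ev_fun {T : Type v} [Small.{1} T] {S : Type*} [Small.{1} S] (f : T → S) :
    ∀ᶠ w in gen P, ∀ a, w.In a → w.In (f a) :=
  ev_all fun a => ev_const (f a)

theorem ev_fun₂ {T : Type v} [Small.{1} T] {T' : Type*} [Small.{1} T'] {S : Type*} [Small.{1} S]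
    (f : T → T' → S) : ∀ᶠ w in gen P, ∀ a, w.In a → ∀ b, w.In b → w.In (f a b) :=
  ev_all fun a => ev_fun (f a)

theorem ev_skolem {T : Type v} [Small.{1} T] (R : T → Prop) :
    ∀ᶠ w in gen P, (∃ a, R a) → ∃ a, w.In a ∧ R a :=
  ev_imp fun ⟨a, ha⟩ => (ev_const a).mono fun _ h => ⟨a, h, ha⟩

theorem ev_skolemG {T : Type v} [Small.{1} T] (R : P → T → Prop) :
    ∀ᶠ w in gen P, ∀ p ∈ w.G, (∃ a, R p a) → ∃ a, w.In a ∧ R p a := by
  filter_upwards [ev_generic, ev_all fun p => ev_skolem (R p)] with w hw h p hp using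
    h p (hw.mem p hp)

theorem ev_all_fin {T : Type v} [Small.{1} T] {n : ℕ} {Φ : (Fin n → T) → World P → Prop}
    (h : ∀ a, ∀ᶠ w in gen P, Φ a w) : ∀ᶠ w in gen P, ∀ a, (∀ i, w.In (a i)) → Φ a w := by
  induction n with
  | zero =>
    filter_upwards [h Fin.elim0] with w hw a _
    rwa [Subsingleton.elim a Fin.elim0]
  | succ n ih =>
    filter_upwards [ev_all fun x : T => ih (Φ := fun a => Φ (Fin.cons x a)) fun a => h _]
      with w hw a ha
    have := hw (a 0) (ha 0) (Fin.tail a) fun i => ha i.succ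
    rwa [Fin.cons_self_tail] at this

theorem ev_all_finset {T : Type v} [Small.{1} T] {Φ : Finset T → World P → Prop}
    (h : ∀ a, ∀ᶠ w in gen P, Φ a w) : ∀ᶠ w in gen P, ∀ a : Finset T, (∀ i ∈ a, w.In i) → Φ a w := by
  classical
  filter_upwards [ev_call fun n : ℕ => ev_all_fin (n := n)
    (Φ := fun a => Φ (Finset.univ.image a)) fun a => h _] with w hw a ha
  have := hw a.card (fun i => (a.equivFin.symm i).1) fun i => ha _ (a.equivFin.symm i).2
  convert this
  ext x
  simp only [Finset.mem_image, Finset.mem_univ, true_and]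
  constructor
  · intro hx
    exact ⟨a.equivFin ⟨x, hx⟩, by simp⟩
  · rintro ⟨i, rfl⟩
    exact (a.equivFin.symm i).2

/-- all elements of a countable set of the ground model are in `N` -/
theorem ev_countable_set {T : Type v} [Small.{1} T] {S : Set T} (hS : S.Countable) :
    ∀ᶠ w in gen P, ∀ a ∈ S, w.In a := by
  have := hS.to_subtype
  filter_upwards [ev_call fun a : S => ev_const (P := P) a.1] with w hw a ha using hw ⟨a, ha⟩

theorem ev_dense (D : P → Prop) :
    ∀ᶠ w in gen P, ∀ p ∈ w.G, (∀ q ≤ p, ∃ r ≤ q, D r) → ∃ r ∈ w.G, r ≤ p ∧ D r := by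
  filter_upwards [ev_generic,
    ev_fun fun p : P => {r | (r ≤ p ∧ D r) ∨ ∀ s, s ≤ r → ¬ s ≤ p}] with w hw h p hp hD
  obtain ⟨r, hr, hr'⟩ := hw.meet _ (h p (hw.mem p hp)) fun q => by
    by_cases hq : ∃ s, s ≤ q ∧ s ≤ p
    · obtain ⟨s, h1, h2⟩ := hq
      obtain ⟨r, h3, h4⟩ := hD s h2
      exact ⟨r, Or.inl ⟨h3.trans h2, h4⟩, h3.trans h1⟩
    · push Not at hq
      exact ⟨q, Or.inr hq, le_rfl⟩
  rcases hr' with hr' | hr'
  · exact ⟨r, hr, hr'⟩
  · obtain ⟨s, -, h1, h2⟩ := hw.dir r hr p hp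
    exact absurd h2 (hr' s h1)

theorem ev_dense0 (D : P → Prop) (hD : ∀ q, ∃ r ≤ q, D r) : ∀ᶠ w in gen P, ∃ r ∈ w.G, D r := by
  filter_upwards [ev_generic, ev_const {r | D r}] with w hw h
  exact hw.meet _ h fun p => by
    obtain ⟨r, h1, h2⟩ := hD p
    exact ⟨r, h2, h1⟩

theorem ev_nonempty : ∀ᶠ w in gen P, ∃ r, r ∈ w.G :=
  (ev_dense0 (fun _ => True) fun q => ⟨q, le_rfl, trivial⟩).mono fun _ ⟨r, h, _⟩ => ⟨r, h⟩

/-- a dense set with witnesses in `N` -/
theorem ev_dense_ex {T : Type v} [Small.{1} T] (R : P → T → Prop) :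
    ∀ᶠ w in gen P, ∀ p ∈ w.G, (∀ q ≤ p, ∃ r ≤ q, ∃ a, R r a) →
      ∃ r ∈ w.G, r ≤ p ∧ ∃ a, w.In a ∧ R r a := by
  filter_upwards [ev_dense fun r => ∃ a, R r a, ev_skolemG R] with w h1 h2 p hp hD
  obtain ⟨r, hr, h3, h4⟩ := h1 p hp hD
  exact ⟨r, hr, h3, h2 r hr h4⟩

theorem World.Generic.dir_finset {w : World P} (hw : w.Generic) {p0 : P} (h0 : p0 ∈ w.G)
    {α : Type*} (s : Finset α) (D : α → P → Prop) (hD : ∀ a p q, q ≤ p → D a p → D a q)
    (h : ∀ a ∈ s, ∃ p ∈ w.G, D a p) : ∃ p ∈ w.G, p ≤ p0 ∧ ∀ a ∈ s, D a p := by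
  classical
  induction s using Finset.induction_on with
  | empty => exact ⟨p0, h0, le_rfl, by simp⟩
  | insert a s _ ih =>
    obtain ⟨p, hp, h1, h2⟩ := ih fun b hb => h b (Finset.mem_insert_of_mem hb)
    obtain ⟨q, hq, h3⟩ := h a (Finset.mem_insert_self _ _)
    obtain ⟨r, hr, h4, h5⟩ := hw.dir p hp q hq
    refine ⟨r, hr, h4.trans h1, fun b hb => ?_⟩
    rcases Finset.mem_insert.1 hb with rfl | hb
    exacts [hD _ _ _ h5 h3, hD _ _ _ h4 (h2 b hb)]

theorem exists_generic [Nonempty P] : ∀ᶠ N in club, ∃ G : Set P, (World.mk N G).Generic := by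
  obtain ⟨p0⟩ := ‹Nonempty P›
  have h1 : ∀ᶠ N in club, ∀ D : Set P, emb D ∈ N → ∀ p : P, emb p ∈ N →
      (∃ q ∈ D, q ≤ p) → ∃ q, emb q ∈ N ∧ q ∈ D ∧ q ≤ p := by
    refine club_all fun D => club_all fun p => ?_
    by_cases h : ∃ q ∈ D, q ≤ p
    · obtain ⟨q, h1, h2⟩ := h
      exact (club_const q).mono fun N hN _ => ⟨q, hN, h1, h2⟩
    · exact Eventually.of_forall fun _ h' => absurd h' h
  filter_upwards [h1, club_const p0, club_const (univ : Set P), club_countable] with N h1 h2 h3 h4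
  have hc : {D : Set P | emb D ∈ N ∧ ∀ p, ∃ q ∈ D, q ≤ p}.Countable :=
    (countable_emb_mem h4).mono fun D hD => hD.1
  obtain ⟨f, hf⟩ := hc.exists_eq_range ⟨univ, h3, fun p => ⟨p, mem_univ _, le_rfl⟩⟩
  have hfn : ∀ n, emb (f n) ∈ N ∧ ∀ p, ∃ q ∈ f n, q ≤ p := fun n => by
    have : f n ∈ range f := mem_range_self n
    rwa [← hf] at this
  have step : ∀ n (p : {p : P // emb p ∈ N}), ∃ q : {p : P // emb p ∈ N}, q.1 ∈ f n ∧ q.1 ≤ p.1 :=
    fun n p => by
      obtain ⟨q, a, b, c⟩ := h1 (f n) (hfn n).1 p.1 p.2 ((hfn n).2 p.1)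
      exact ⟨⟨q, a⟩, b, c⟩
  choose g hg using step
  let s : ℕ → {p : P // emb p ∈ N} := fun n => Nat.rec ⟨p0, h2⟩ (fun n p => g n p) n
  have hs : Antitone fun n => (s n).1 := antitone_nat_of_succ_le fun n => (hg n (s n)).2
  refine ⟨range fun n => (s n).1, ?_, ?_, ?_⟩
  · rintro _ ⟨n, rfl⟩
    exact (s n).2
  · rintro _ ⟨n, rfl⟩ _ ⟨m, rfl⟩
    exact ⟨_, ⟨max n m, rfl⟩, hs (le_max_left _ _), hs (le_max_right _ _)⟩
  · intro D hD hD'
    have : D ∈ range f := by rw [← hf]; exact ⟨hD, hD'⟩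
    obtain ⟨n, rfl⟩ := this
    exact ⟨_, ⟨n + 1, rfl⟩, (hg n (s n)).1⟩

instance gen_neBot [Nonempty P] : (gen P).NeBot := by
  refine Filter.forall_mem_nonempty_iff_neBot.1 fun A hA => ?_
  obtain ⟨N, h1, G, h2⟩ := (Eventually.and (ev_gen_iff.1 (show ∀ᶠ w in gen P, w ∈ A from hA))
    (exists_generic (P := P))).exists
  exact ⟨_, h1 G h2⟩

end Pool.Agent.Lib.Helper87
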