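import Pool.Agent.Lib.Helper87.ModelDefs

namespace Pool.Agent.Lib.Helper87

/-- the usual set theoretic representation of mathematical objects -/
class Coded (T : Type) where
  code : T → ZFSet.{0}

open Coded

/-- von Neumann natural numbers -/
instance codedNat : Coded ℕ := ⟨fun n => ZFSet.mk (PSet.ofNat n)⟩

/-- `false` is `0` and `true` is `1` -/
instance codedBool : Coded Bool := ⟨fun b => code b.toNat⟩

/-- Kuratowski pairs -/
instance codedProd {S T : Type} [Coded S] [Coded T] : Coded (S × T) :=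
  ⟨fun x => ZFSet.pair (code x.1) (code x.2)⟩

/-- a set is the set of the codes of its elements -/
noncomputable instance codedSet {T : Type} [Coded T] : Coded (Set T) :=
  ⟨fun A => ZFSet.range fun t : A => code t.1⟩

/-- a sequence is its graph -/
noncomputable instance codedSeq {T : Type} [Coded T] : Coded (ℕ → T) :=
  ⟨fun f => code (Set.range fun n => (n, f n))⟩

/-- `M` contains an injective function from `a` to `b` -/
def CardLE (M : Set ZFSet.{0}) (a b : ZFSet.{0}) : Prop :=
  ∃ f ∈ M, ZFSet.IsFunc a b f ∧ ∀ x x' y, ZFSet.pair x y ∈ f → ZFSet.pair x' y ∈ f → x = x'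

/-- `κ` is an infinite regular cardinal of `M` -/
def RegularCard (M : Set ZFSet.{0}) (κ : ZFSet.{0}) : Prop :=
  κ ∈ M ∧ κ.IsOrdinal ∧ ZFSet.omega ⊆ κ ∧
    ∀ α ∈ κ, ∀ f ∈ M, ZFSet.IsFunc α κ f → ∃ β ∈ κ, ∀ x y, ZFSet.pair x y ∈ f → y ∈ β

end Pool.Agent.Lib.Helper87
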