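import Pool.Agent.Lib.Helper87.Sem
import Pool.Agent.Lib.Helper87.CodeDefs

/-!
Names for coded objects, cardinalities and ordinals in the extension.
-/

open Filter Set Function

namespace Pool.Agent.Lib.Helper87

open Coded

/-- injective codings -/
class CodedInj (T : Type) [Coded T] : Prop where
  inj : Injective (code : T → ZFSet.{0})

theorem code_inj {T : Type} [Coded T] [CodedInj T] {a b : T} : code a = code b ↔ a = b :=
  CodedInj.inj.eq_iff

theorem code_succ (n : ℕ) : code (n + 1) = insert (code n) (code n) := rfl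

theorem code_zero : code (0 : ℕ) = ∅ := rfl

theorem mem_code_nat {n : ℕ} {z : ZFSet.{0}} : z ∈ code n ↔ ∃ k < n, code k = z := by
  induction n with
  | zero => simp [code_zero]
  | succ n ih =>
    rw [code_succ, ZFSet.mem_insert_iff, ih]
    constructor
    · rintro (rfl | ⟨k, h, rfl⟩)
      exacts [⟨n, by omega, rfl⟩, ⟨k, by omega, rfl⟩]
    · rintro ⟨k, h, rfl⟩
      rcases Nat.lt_succ_iff_lt_or_eq.1 h with h | rfl
      exacts [Or.inr ⟨k, h, rfl⟩, Or.inl rfl]

instance : CodedInj ℕ := ⟨fun a b h => by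
  rcases lt_trichotomy a b with h' | h' | h'
  · exact absurd (mem_code_nat.2 ⟨a, h', h⟩) (ZFSet.mem_irrefl (code b))
  · exact h'
  · exact absurd (mem_code_nat.2 ⟨b, h', h.symm⟩) (ZFSet.mem_irrefl (code a))⟩

instance : CodedInj Bool := ⟨fun a b h => by
  have : a.toNat = b.toNat := code_inj.1 h
  cases a <;> cases b <;> simp_all⟩

theorem code_prod {S T : Type} [Coded S] [Coded T] (a : S) (b : T) :
    code (a, b) = ZFSet.pair (code a) (code b) := rfl

instance {S T : Type} [Coded S] [Coded T] [CodedInj S] [CodedInj T] : CodedInj (S × T) :=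
  ⟨fun a b h => by
    have := ZFSet.pair_inj.1 h
    exact Prod.ext (code_inj.1 this.1) (code_inj.1 this.2)⟩

section
variable {T : Type} [Coded T]

theorem mem_code_set {A : Set T} {z : ZFSet.{0}} : z ∈ code A ↔ ∃ t ∈ A, code t = z := by
  change z ∈ ZFSet.range _ ↔ _
  simp

theorem code_mem_code [CodedInj T] {A : Set T} {t : T} : code t ∈ code A ↔ t ∈ A := by
  simp [mem_code_set, code_inj]

instance [CodedInj T] : CodedInj (Set T) := ⟨fun A B h => by
  ext t
  rw [← code_mem_code, h, code_mem_code]⟩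

theorem mem_code_seq {f : ℕ → T} {z : ZFSet.{0}} :
    z ∈ code f ↔ ∃ n, ZFSet.pair (code n) (code (f n)) = z := by
  change z ∈ code (Set.range fun n => (n, f n)) ↔ _
  simp [mem_code_set, code_prod]

theorem pair_mem_code_seq [CodedInj T] {f : ℕ → T} {n : ℕ} {t : T} :
    ZFSet.pair (code n) (code t) ∈ code f ↔ f n = t := by
  simp [mem_code_seq, code_inj]

instance [CodedInj T] : CodedInj (ℕ → T) := ⟨fun f g h => by
  funext n
  rw [← pair_mem_code_seq, h, pair_mem_code_seq]⟩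

end

variable {P : Type} [Preorder P]

section
variable {S T : Type} [Coded S] [Coded T]

/-- the code of `t` is given by a name -/
def NamedC (t : World P → T) : Prop := Named fun w => code (t w)

theorem NamedC.ev_mem {t : World P → T} (h : NamedC t) : ∀ᶠ w in gen P, code (t w) ∈ w.M :=
  Named.ev_mem h

theorem NamedC.congr {s t : World P → T} (h : NamedC s) (h' : ∀ᶠ w in gen P, s w = t w) :
    NamedC t := Named.congr h (h'.mono fun _ h => congrArg code h)

theorem NamedC.prod {s : World P → S} {t : World P → T} (h : NamedC s) (h' : NamedC t) :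
    NamedC fun w => (s w, t w) := Named.pair h h'

theorem NamedC.measurable_eq [CodedInj T] {s t : World P → T} (h : NamedC s) (h' : NamedC t) :
    Measurable fun w => s w = t w := by
  simpa only [code_inj] using Named.measurable_eq h h'

theorem NamedC.measurable_mem [CodedInj T] {s : World P → T} {A : World P → Set T} (h : NamedC s)
    (h' : NamedC A) : Measurable fun w => s w ∈ A w := by
  simpa only [code_mem_code] using Named.measurable_mem h h'

theorem namedC_set {I : Type} {t : I → World P → T} (ht : ∀ i, NamedC (t i))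
    {Φ : I → World P → Prop} (hΦ : ∀ i, Measurable (Φ i)) {A : World P → Set T}
    (hA : ∀ᶠ w in gen P, ∀ z, z ∈ A w ↔ ∃ i, w.In i ∧ Φ i w ∧ t i w = z) : NamedC A := by
  refine named_of_mem_iff ht hΦ ?_
  filter_upwards [hA] with w h z
  simp only [mem_code_set, h]
  constructor
  · rintro ⟨_, ⟨i, a1, a2, rfl⟩, rfl⟩
    exact ⟨i, a1, a2, rfl⟩
  · rintro ⟨i, a1, a2, rfl⟩
    exact ⟨_, ⟨i, a1, a2, rfl⟩, rfl⟩

theorem namedC_mix {I : Type} {t : I → World P → T} (ht : ∀ i, NamedC (t i))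
    {Φ : I → World P → Prop} (hΦ : ∀ i, Measurable (Φ i)) {s : World P → T}
    (h1 : ∀ᶠ w in gen P, ∃ i, w.In i ∧ Φ i w)
    (h2 : ∀ᶠ w in gen P, ∀ i, w.In i → Φ i w → t i w = s w) : NamedC s :=
  named_mix ht hΦ h1 (h2.mono fun _ h i a b => congrArg code (h i a b))

theorem namedC_const_nat (n : ℕ) : NamedC fun _ : World P => n := named_nat n

theorem namedC_nat {n : World P → ℕ} (h : Measurable n) : NamedC n :=
  namedC_mix namedC_const_nat (Φ := fun k w => k = n w)
    (fun k => measurableSet_setOfPred.1 (h (t := {a | k = a}) trivial))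
    ((ev_ctype ℕ).mono fun w h => ⟨n w, h _, rfl⟩) (Eventually.of_forall fun _ _ _ h => h)

theorem namedC_bool {b : World P → Bool} (h : Measurable b) : NamedC b :=
  namedC_nat (n := fun w => (b w).toNat) ((Measurable.of_discrete (f := Bool.toNat)).comp h)

theorem namedC_seq {f : World P → ℕ → T} (h : ∀ n, NamedC fun w => f w n) : NamedC f := by
  refine namedC_set (A := fun w => Set.range fun n => (n, f w n)) (t := fun n w => (n, f w n))
    (fun n => (namedC_const_nat n).prod (h n)) (Φ := fun _ _ => True)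
    (fun _ => measurable_const) ?_
  filter_upwards [ev_ctype ℕ] with w h z
  simp [h]

theorem namedC_real {x : World P → ℕ → Bool} (h : Measurable x) : NamedC x :=
  namedC_seq fun n => namedC_bool ((measurable_pi_apply n).comp h)

theorem NamedC.union {A B : World P → Set T} (h : NamedC A) (h' : NamedC B) :
    NamedC fun w => A w ∪ B w := by
  obtain ⟨I, x, Φ, a1, a2, a3⟩ := Named.exists_index h
  obtain ⟨J, y, Ψ, b1, b2, b3⟩ := Named.exists_index h'
  refine named_of_mem_iff (I := I ⊕ J) (x := Sum.elim x y) (Φ := Sum.elim Φ Ψ)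
    (fun i => by cases i <;> simp [a1, b1]) (fun i => by cases i <;> simp [a2, b2]) ?_
  filter_upwards [a3, b3, ev_in_sum I J] with w c1 c2 c3 z
  simp only [Sum.exists, Sum.elim_inl, Sum.elim_inr, c3.1, c3.2, ← c1, ← c2, mem_code_set,
    mem_union, or_and_right, exists_or]

/-- decoding names of reals -/
theorem Named.exists_real {y : World P → ZFSet.{0}} (h : Named y) :
    ∃ x : World P → ℕ → Bool, Measurable x ∧ ∀ w d, code d = y w → x w = d := by
  classical
  refine ⟨fun w n => decide (ZFSet.pair (code n) (code true) ∈ y w),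
    measurable_pi_iff.2 fun n => measurable_to_bool ?_, fun w d hd => funext fun n => ?_⟩
  · have := Named.measurable_mem (Named.pair (named_nat (P := P) n) (named_nat 1)) h
    convert measurableSet_setOfPred.2 this using 1
    ext w
    simp
    rfl
  · simp only [← hd, pair_mem_code_seq]
    simp

/-- decoding names of families of sets -/
theorem Named.exists_family [CodedInj T] {y : World P → ZFSet.{0}} (h : Named y) :
    ∃ (I : Type) (U : I → World P → Set T) (u : I → World P → ZFSet.{0}) (Φ : I → World P → Prop),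
      (∀ i, Named (u i)) ∧ (∀ i, Measurable (Φ i)) ∧ (∀ i w t, t ∈ U i w ↔ code t ∈ u i w) ∧
      ∀ᶠ w in gen P, ∀ 𝒰 : Set (Set T), code 𝒰 = y w →
        (∀ i, w.In i → Φ i w → code (U i w) = u i w ∧ U i w ∈ 𝒰) ∧
        ∀ V ∈ 𝒰, ∃ i, w.In i ∧ Φ i w ∧ U i w = V := by
  obtain ⟨I, u, Φ, a1, a2, a3⟩ := h.exists_index
  refine ⟨I, fun i w => {t | code t ∈ u i w}, u, Φ, a1, a2, fun _ _ _ => Iff.rfl, ?_⟩
  filter_upwards [a3] with w h 𝒰 h𝒰
  constructor
  · intro i b1 b2
    obtain ⟨V, c1, c2⟩ := mem_code_set.1 (h𝒰 ▸ (h _).2 ⟨i, b1, b2, rfl⟩)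
    simp only [← c2, code_mem_code, ofPred_mem_eq, true_and]
    exact c1
  · intro V hV
    obtain ⟨i, b1, b2, b3⟩ := (h _).1 (h𝒰 ▸ code_mem_code.2 hV)
    exact ⟨i, b1, b2, by simp only [b3, code_mem_code, ofPred_mem_eq]⟩

end

theorem ev_cardLE {I : Type} {a b : I → World P → ZFSet.{0}} (ha : ∀ i, Named (a i))
    (hb : ∀ i, Named (b i)) {Φ : I → World P → Prop} (hΦ : ∀ i, Measurable (Φ i)) :
    ∀ᶠ w in gen P, ∀ A B : ZFSet.{0}, (∀ z ∈ A, ∃ i, w.In i ∧ Φ i w ∧ a i w = z) →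
      (∀ i, w.In i → Φ i w → a i w ∈ A ∧ b i w ∈ B) →
      (∀ i j, w.In i → w.In j → Φ i w → Φ j w → (a i w = a j w ↔ b i w = b j w)) →
      CardLE w.M A B := by
  let f : World P → ZFSet.{0} := fun w =>
    ZFSet.range fun i : {i // w.In i ∧ Φ i w} => ZFSet.pair (a i w) (b i w)
  have hf : ∀ w z, z ∈ f w ↔ ∃ i, w.In i ∧ Φ i w ∧ ZFSet.pair (a i w) (b i w) = z := by
    intro w z
    simp [f, and_assoc]
  have h1 : Named f := named_of_mem_iff (fun i => (ha i).pair (hb i)) hΦ (Eventually.of_forall hf)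
  filter_upwards [h1.ev_mem] with w h2 A B c1 c2 c3
  refine ⟨f w, h2, ⟨fun z hz => ?_, fun z hz => ?_⟩, fun x x' y d1 d2 => ?_⟩
  · obtain ⟨i, d1, d2, rfl⟩ := (hf w z).1 hz
    exact ZFSet.pair_mem_prod.2 (c2 i d1 d2)
  · obtain ⟨i, d1, d2, rfl⟩ := c1 z hz
    refine ⟨b i w, (hf w _).2 ⟨i, d1, d2, rfl⟩, fun y hy => ?_⟩
    obtain ⟨j, e1, e2, e3⟩ := (hf w _).1 hy
    rw [ZFSet.pair_inj] at e3
    exact e3.2.symm.trans ((c3 j i e1 d1 e2 d2).1 e3.1)
  · obtain ⟨i, e1, e2, e3⟩ := (hf w _).1 d1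
    obtain ⟨j, e4, e5, e6⟩ := (hf w _).1 d2
    rw [ZFSet.pair_inj] at e3 e6
    exact e3.1.symm.trans (((c3 i j e1 e4 e2 e5).2 (e3.2.trans e6.2.symm)).trans e6.1)

section ord
variable {O : Type} [LinearOrder O] [WellFoundedLT O]

omit [Preorder P] in
/-- the collapse of the elements of a well order -/
noncomputable def World.ord (w : World P) : O → ZFSet.{0} :=
  (wellFounded_lt (α := O)).fix fun a f => ZFSet.range fun b : {b : Iio a // w.In b.1} => f b.1 b.1.2

omit [Preorder P] in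
variable (O) in
/-- the collapse of a well order -/
noncomputable def World.ordTop (w : World P) : ZFSet.{0} :=
  ZFSet.range fun b : {b : O // w.In b} => w.ord b.1

omit [Preorder P] in
theorem World.mem_ord (w : World P) {a : O} {z : ZFSet.{0}} :
    z ∈ w.ord a ↔ ∃ b, w.In b ∧ b < a ∧ w.ord b = z := by
  rw [World.ord, WellFounded.fix_eq]
  simp only [ZFSet.mem_range, Subtype.exists, mem_Iio, exists_prop]
  constructor
  · rintro ⟨b, h1, h2, rfl⟩
    exact ⟨b, h2, h1, rfl⟩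
  · rintro ⟨b, h1, h2, rfl⟩
    exact ⟨b, h2, h1, rfl⟩

omit [Preorder P] in
theorem World.mem_ordTop (w : World P) {z : ZFSet.{0}} :
    z ∈ w.ordTop O ↔ ∃ b : O, w.In b ∧ w.ord b = z := by
  simp [World.ordTop]

omit [Preorder P] in
theorem World.lt_of_ord_mem (w : World P) {a b : O} (h : w.ord b ∈ w.ord a) : b < a := by
  obtain ⟨c, h1, h2, h3⟩ := w.mem_ord.1 h
  by_contra hc
  exact ZFSet.mem_irrefl (w.ord b) (w.mem_ord.2 ⟨c, h1, h2.trans_le (not_lt.1 hc), h3⟩)

omit [Preorder P] in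
theorem World.ord_inj (w : World P) {a b : O} (ha : w.In a) (hb : w.In b) :
    w.ord a = w.ord b ↔ a = b := by
  refine ⟨fun h => ?_, fun h => h ▸ rfl⟩
  rcases lt_trichotomy a b with h' | h' | h'
  · exact absurd (w.mem_ord.2 ⟨a, ha, h', h⟩) (ZFSet.mem_irrefl (w.ord b))
  · exact h'
  · exact absurd (w.mem_ord.2 ⟨b, hb, h', h.symm⟩) (ZFSet.mem_irrefl (w.ord a))

omit [Preorder P] in
theorem World.ord_trans (w : World P) (a : O) : (w.ord a).IsTransitive := by
  intro y hy z hz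
  obtain ⟨b, -, h1, rfl⟩ := w.mem_ord.1 hy
  obtain ⟨c, h2, h3, rfl⟩ := w.mem_ord.1 hz
  exact w.mem_ord.2 ⟨c, h2, h3.trans h1, rfl⟩

omit [Preorder P] in
theorem World.isOrdinal_ordTop (w : World P) : (w.ordTop O).IsOrdinal := by
  refine ZFSet.isOrdinal_iff_forall_mem_isTransitive.2 ⟨fun y hy z hz => ?_, fun y hy => ?_⟩
  · obtain ⟨b, -, rfl⟩ := w.mem_ordTop.1 hy
    obtain ⟨c, h2, -, rfl⟩ := w.mem_ord.1 hz
    exact w.mem_ordTop.2 ⟨c, h2, rfl⟩
  · obtain ⟨b, -, rfl⟩ := w.mem_ordTop.1 hy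
    exact w.ord_trans b

theorem named_ord (a : O) : Named fun w : World P => w.ord a := by
  induction a using WellFoundedLT.induction with
  | ind a ih =>
  refine named_of_mem_iff (I := Iio a) (x := fun b w => w.ord b.1) (fun b => ih b.1 b.2)
    (Φ := fun _ _ => True) (fun _ => measurable_const) ?_
  filter_upwards [ev_in_subtype (· ∈ Iio a)] with w h z
  rw [w.mem_ord]
  constructor
  · rintro ⟨b, h1, h2, rfl⟩
    exact ⟨⟨b, h2⟩, (h ⟨b, h2⟩).2 h1, trivial, rfl⟩
  · rintro ⟨b, h1, -, rfl⟩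
    exact ⟨b, (h b).1 h1, b.2, rfl⟩

theorem named_ordTop : Named fun w : World P => w.ordTop O :=
  named_of_mem_iff (x := fun (b : O) w => w.ord b) named_ord (Φ := fun _ _ => True)
    (fun _ => measurable_const) (Eventually.of_forall fun w z => by simp [w.mem_ordTop])

theorem ev_omega_subset [Nonempty O] [NoMaxOrder O] :
    ∀ᶠ w in gen P, ZFSet.omega ⊆ w.ordTop O := by
  have h1 : ∀ a : O, ∃ s, a < s ∧ ∀ b, b < s → b ≤ a := fun a => by
    obtain ⟨s, h1, h2⟩ := (wellFounded_lt (α := O)).has_min (Ioi a) (exists_gt a)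
    exact ⟨s, h1, fun b hb => not_lt.1 fun h => h2 b h hb⟩
  choose s hs using h1
  obtain ⟨m, -, hm⟩ := (wellFounded_lt (α := O)).has_min univ univ_nonempty
  filter_upwards [ev_fun s, ev_const m] with w h2 h3 x hx
  obtain ⟨n, rfl⟩ := mem_omega_iff.1 hx
  rw [w.mem_ordTop]
  induction n with
  | zero =>
    refine ⟨m, h3, (ZFSet.eq_empty _).2 fun z hz => ?_⟩
    obtain ⟨b, -, h, -⟩ := w.mem_ord.1 hz
    exact hm b trivial h
  | succ n ih =>
    obtain ⟨a, a1, a2⟩ := ih (mem_omega_iff.2 ⟨n, rfl⟩)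
    refine ⟨s a, h2 a a1, ?_⟩
    change _ = insert (ZFSet.mk (PSet.ofNat n)) (ZFSet.mk (PSet.ofNat n))
    rw [← a2]
    ext z
    rw [ZFSet.mem_insert_iff, w.mem_ord, w.mem_ord]
    constructor
    · rintro ⟨b, b1, b2, rfl⟩
      rcases ((hs a).2 b b2).eq_or_lt with rfl | h
      exacts [Or.inl rfl, Or.inr ⟨b, b1, h, rfl⟩]
    · rintro (rfl | ⟨b, b1, b2, rfl⟩)
      exacts [⟨a, a1, (hs a).1, rfl⟩, ⟨b, b1, b2.trans (hs a).1, rfl⟩]

/-- ccc forcing preserves regular uncountable cardinals -/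
theorem ev_regular [Nonempty O] [NoMaxOrder O] (hP : CCC P)
    (hO : ∀ (a : O) (f : O → Set O), (∀ b, (f b).Countable) → ∃ e, ∀ b < a, ∀ c ∈ f b, c < e) :
    ∀ᶠ w in gen P, RegularCard w.M (w.ordTop O) := by
  have key : ∀ᶠ w in gen P, ∀ a : O, w.In a → ∀ f ∈ w.M, ZFSet.IsFunc (w.ord a) (w.ordTop O) f →
      ∃ β ∈ w.ordTop O, ∀ x y, ZFSet.pair x y ∈ f → y ∈ β := by
    refine ev_all fun a => ev_all_named fun f hf => ?_
    choose S h1 h2 using fun b : O => hP.cover (Φ := fun (c : O) w =>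
      ZFSet.pair (w.ord b) (w.ord c) ∈ f w) fun c =>
        ((named_ord b).pair (named_ord c)).measurable_mem hf
    obtain ⟨e, he⟩ := hO a S h1
    filter_upwards [ev_all h2, ev_const e] with w h3 h4 h5
    refine ⟨w.ord e, w.mem_ordTop.2 ⟨e, h4, rfl⟩, fun x y hxy => ?_⟩
    obtain ⟨a1, a2⟩ := ZFSet.pair_mem_prod.1 (h5.1 hxy)
    obtain ⟨b, b1, b2, rfl⟩ := w.mem_ord.1 a1
    obtain ⟨c, c1, rfl⟩ := w.mem_ordTop.1 a2
    refine w.mem_ord.2 ⟨c, c1, he b b2 c (h3 b b1 c c1 hxy fun c' d1 d2 => ?_), rfl⟩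
    exact (w.ord_inj d1 c1).1 ((h5.2 _ a1).unique d2 hxy)
  filter_upwards [key, named_ordTop (O := O).ev_mem, ev_omega_subset (O := O)] with w h1 h2 h3
  refine ⟨h2, w.isOrdinal_ordTop, h3, fun α hα => ?_⟩
  obtain ⟨a, a1, rfl⟩ := w.mem_ordTop.1 hα
  exact h1 a a1

/-- a family indexed by the elements below `a` has size at most `a` -/
theorem ev_cardLE_ord {x : O → World P → ZFSet.{0}} (hx : ∀ b, Named (x b)) (a : O) :
    ∀ᶠ w in gen P, ∀ A : ZFSet.{0}, (∀ z, z ∈ A ↔ ∃ b, w.In b ∧ b < a ∧ x b w = z) →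
      CardLE w.M A (w.ord a) := by
  filter_upwards [ev_cardLE hx (b := fun b w => w.ord b) named_ord
    (Φ := fun b w => b < a ∧ ∀ c, w.In c → c < b → x c w ≠ x b w) fun b =>
      measurable_const.and (measurable_all_in fun c =>
        measurable_const.imp ((hx c).measurable_eq (hx b)).not)] with w h A hA
  refine h A _ (fun z hz => ?_) (fun b b1 b2 => ⟨(hA _).2 ⟨b, b1, b2.1, rfl⟩,
    w.mem_ord.2 ⟨b, b1, b2.1, rfl⟩⟩) fun b c b1 c1 b2 c2 => ?_
  · obtain ⟨b, ⟨b1, b2, rfl⟩, b3⟩ :=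
      (wellFounded_lt (α := O)).has_min {b | w.In b ∧ b < a ∧ x b w = z} ((hA z).1 hz)
    exact ⟨b, b1, ⟨b2, fun c c1 c2 c3 => b3 c ⟨c1, c2.trans b2, c3⟩ c2⟩, rfl⟩
  · rw [w.ord_inj b1 c1]
    refine ⟨fun e => ?_, fun e => e ▸ rfl⟩
    rcases lt_trichotomy b c with h' | h' | h'
    · exact absurd e (c2.2 b b1 h')
    · exact h'
    · exact absurd e.symm (b2.2 c c1 h')

end ord

end Pool.Agent.Lib.Helper87
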