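import Mathlib

namespace Pool.Agent.Lib.Helper87

open FirstOrder

/-- `(M, ∈)` as a structure for the language with one binary relation symbol -/
abbrev memStr (M : Set ZFSet.{0}) : Language.graph.Structure M where
  RelMap | .adj => fun v => (v 0).1 ∈ (v 1).1

/-- `(M, ∈)` satisfies the formula `φ` at `v` -/
def Sat (M : Set ZFSet.{0}) {n : ℕ} (φ : Language.graph.BoundedFormula Empty n)
    (v : Fin n → M) : Prop :=
  @Language.BoundedFormula.Realize Language.graph M (memStr M) Empty n φ Empty.elim v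

/-- `M` is a transitive model of ZFC (extensionality and foundation hold in every transitive
set) -/
structure TransModelZFC (M : Set ZFSet.{0}) : Prop where
  trans : ∀ x ∈ M, ∀ y ∈ x, y ∈ M
  pair : ∀ x ∈ M, ∀ y ∈ M, ({x, y} : ZFSet) ∈ M
  union : ∀ x ∈ M, ZFSet.sUnion x ∈ M
  infinity : ZFSet.omega ∈ M
  power : ∀ x ∈ M, ∃ y ∈ M, ∀ z ∈ M, z ⊆ x → z ∈ y
  separation : ∀ (n : ℕ) (φ : Language.graph.BoundedFormula Empty (n + 1)) (v : Fin n → M)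
    (a : M), ∃ b : M, ∀ x : M, x.1 ∈ b.1 ↔ x.1 ∈ a.1 ∧ Sat M φ (Fin.snoc v x)
  replacement : ∀ (n : ℕ) (φ : Language.graph.BoundedFormula Empty (n + 2)) (v : Fin n → M)
    (a : M), (∀ x : M, x.1 ∈ a.1 → ∃! y : M, Sat M φ (Fin.snoc (Fin.snoc v x) y)) →
      ∃ b : M, ∀ x : M, x.1 ∈ a.1 → ∃ y : M, y.1 ∈ b.1 ∧ Sat M φ (Fin.snoc (Fin.snoc v x) y)
  choice : ∀ a ∈ M, (∀ x ∈ a, x ≠ ∅) → (∀ x ∈ a, ∀ y ∈ a, x ≠ y → x ∩ y = ∅) →
    ∃ c ∈ M, ∀ x ∈ a, ∃! z, z ∈ x ∧ z ∈ c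

end Pool.Agent.Lib.Helper87
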