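import Pool.Agent.Lib.Helper87.Club

/-!
Names, their values in a world, the atomic forcing relations and their truth lemmas.
-/

open Filter Set

namespace Pool.Agent.Lib.Helper87

universe v

variable {P : Type} [Preorder P]

/-- `q` is below some element of `b` -/
def Below (q : P) (b : Set P) : Prop := ∃ s ∈ b, q ≤ s

theorem Below.mono {q r : P} {b : Set P} (h : Below q b) (hr : r ≤ q) : Below r b :=
  let ⟨s, h1, h2⟩ := h; ⟨s, h1, hr.trans h2⟩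

theorem Below.of_mem {q : P} {b : Set P} (h : q ∈ b) : Below q b := ⟨q, h, le_rfl⟩

theorem below_univ (q : P) : Below q univ := ⟨q, trivial, le_rfl⟩

theorem below_iff {D : P → Prop} (hD : ∀ p q, q ≤ p → D p → D q) {q : P} :
    Below q {p | D p} ↔ D q :=
  ⟨fun ⟨_, h1, h2⟩ => hD _ _ h2 h1, fun h => ⟨q, h, le_rfl⟩⟩

/-- some condition in `G` satisfies `D` -/
def World.Frc (w : World P) (D : P → Prop) : Prop := ∃ p ∈ w.G, D p

/-- `G` meets the lower closure of `b` -/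
def World.Hit (w : World P) (b : Set P) : Prop := w.Frc fun p => Below p b

omit [Preorder P] in
theorem World.Frc.imp {w : World P} {D E : P → Prop} (h : w.Frc D) (hDE : ∀ p, D p → E p) :
    w.Frc E := let ⟨p, h1, h2⟩ := h; ⟨p, h1, hDE p h2⟩

theorem World.hit_iff {w : World P} {D : P → Prop} (hD : ∀ p q, q ≤ p → D p → D q) :
    w.Hit {p | D p} ↔ w.Frc D := by
  simp only [World.Hit, below_iff hD]

theorem World.Generic.frc_and {w : World P} (hw : w.Generic) {D E : P → Prop}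
    (hD : ∀ p q, q ≤ p → D p → D q) (hE : ∀ p q, q ≤ p → E p → E q) (h1 : w.Frc D)
    (h2 : w.Frc E) : w.Frc fun p => D p ∧ E p := by
  obtain ⟨p, hp, h1⟩ := h1
  obtain ⟨q, hq, h2⟩ := h2
  obtain ⟨r, hr, h3, h4⟩ := hw.dir p hp q hq
  exact ⟨r, hr, hD _ _ h3 h1, hE _ _ h4 h2⟩

theorem ev_hit_univ : ∀ᶠ w in gen P, w.Hit (univ : Set P) :=
  ev_nonempty.mono fun _ ⟨r, h⟩ => ⟨r, h, below_univ r⟩

/-- negation -/
theorem ev_frc_not (D : P → Prop) (hD : ∀ p q, q ≤ p → D p → D q) :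
    ∀ᶠ w in gen P, (w.Frc fun p => ∀ q ≤ p, ¬ D q) ↔ ¬ w.Frc D := by
  filter_upwards [ev_generic, ev_dense0 (fun p => D p ∨ ∀ q ≤ p, ¬ D q) fun p => by
    by_cases h : ∃ q ≤ p, D q
    · obtain ⟨q, h1, h2⟩ := h
      exact ⟨q, h1, Or.inl h2⟩
    · push Not at h
      exact ⟨p, le_rfl, Or.inr h⟩] with w hw ⟨r, hr, h⟩
  constructor
  · rintro ⟨p, hp, h1⟩ ⟨q, hq, h2⟩
    obtain ⟨s, -, h3, h4⟩ := hw.dir p hp q hq
    exact h1 s h3 (hD _ _ h4 h2)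
  · intro hn
    rcases h with h | h
    · exact absurd ⟨r, hr, h⟩ hn
    · exact ⟨r, hr, h⟩

/-- density -/
theorem ev_frc_of_dense (D : P → Prop) :
    ∀ᶠ w in gen P, (w.Frc fun p => ∀ q ≤ p, ∃ r ≤ q, D r) → w.Frc D := by
  filter_upwards [ev_dense D] with w hw ⟨p, hp, h⟩
  obtain ⟨r, hr, -, h'⟩ := hw p hp h
  exact ⟨r, hr, h'⟩

/-- existential quantifier -/
theorem ev_frc_ex {T : Type v} [Small.{1} T] (R : P → T → Prop) :
    ∀ᶠ w in gen P, (w.Frc fun p => ∃ a, R p a) ↔ ∃ a, w.In a ∧ w.Frc fun p => R p a := by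
  filter_upwards [ev_skolemG R] with w hw
  constructor
  · rintro ⟨p, hp, h⟩
    obtain ⟨a, h1, h2⟩ := hw p hp h
    exact ⟨a, h1, p, hp, h2⟩
  · rintro ⟨a, -, p, hp, h⟩
    exact ⟨p, hp, a, h⟩

/-- universal quantifier: if every instance in `N` is forced then the universal statement is
densely forced -/
theorem ev_frc_all {T : Type v} [Small.{1} T] (R : P → T → Prop)
    (hR : ∀ a p q, q ≤ p → R p a → R q a) :
    ∀ᶠ w in gen P, (∀ a, w.In a → w.Frc fun p => R p a) →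
      w.Frc fun p => ∀ a, ∀ q ≤ p, ∃ r ≤ q, R r a := by
  filter_upwards [ev_generic, ev_skolemG fun p a => ∀ q ≤ p, ¬ R q a,
    ev_dense0 (fun p => (∀ a, ∀ q ≤ p, ∃ r ≤ q, R r a) ∨ ∃ a, ∀ q ≤ p, ¬ R q a) fun p => by
      by_cases h : ∀ a, ∀ q ≤ p, ∃ r ≤ q, R r a
      · exact ⟨p, le_rfl, Or.inl h⟩
      · push Not at h
        obtain ⟨a, q, h1, h2⟩ := h
        exact ⟨q, h1, Or.inr ⟨a, h2⟩⟩] with w hw hs ⟨r, hr, h⟩ H
  rcases h with h | h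
  · exact ⟨r, hr, h⟩
  · obtain ⟨a, h1, h2⟩ := hs r hr h
    obtain ⟨p, hp, h3⟩ := H a h1
    obtain ⟨s, -, h4, h5⟩ := hw.dir r hr p hp
    exact absurd (hR a _ _ h5 h3) (h2 s h4)

/-- universal quantifier over negated statements -/
theorem ev_frc_all_not {T : Type v} [Small.{1} T] (R : P → T → Prop)
    (hR : ∀ a p q, q ≤ p → R p a → R q a) :
    ∀ᶠ w in gen P, (w.Frc fun p => ∀ a, ∀ q ≤ p, ¬ R q a) ↔
      ∀ a, w.In a → ¬ w.Frc fun p => R p a := by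
  filter_upwards [ev_frc_not (fun p => ∃ a, R p a) fun p q h ⟨a, ha⟩ => ⟨a, hR a p q h ha⟩,
    ev_frc_ex R] with w h1 h2
  rw [h2] at h1
  push Not at h1
  rw [← h1]
  constructor <;> rintro ⟨p, hp, h⟩
  · exact ⟨p, hp, fun q hq a => h a q hq⟩
  · exact ⟨p, hp, fun a q hq => h q hq a⟩

/-- names -/
inductive Name (P : Type) : Type 1
  | mk (α : Type) (A : α → Name P) (c : α → Set P) : Name P

namespace Name

omit [Preorder P]

/-- index type -/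
def I : Name P → Type
  | ⟨α, _, _⟩ => α

/-- potential elements -/
def A : (σ : Name P) → σ.I → Name P
  | ⟨_, A, _⟩ => A

/-- conditions -/
def c : (σ : Name P) → σ.I → Set P
  | ⟨_, _, c⟩ => c

@[simp] theorem I_mk (α : Type) (A : α → Name P) (c : α → Set P) : (mk α A c).I = α := rfl
@[simp] theorem A_mk (α : Type) (A : α → Name P) (c : α → Set P) : (mk α A c).A = A := rfl
@[simp] theorem c_mk (α : Type) (A : α → Name P) (c : α → Set P) : (mk α A c).c = c := rfl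

end Name

/-- the value of a name -/
noncomputable def World.val (w : World P) : Name P → ZFSet.{0}
  | ⟨α, A, c⟩ => ZFSet.range fun i : {i : α // w.In i ∧ w.Hit (c i)} => w.val (A i.1)

theorem World.mem_val (w : World P) (σ : Name P) (x : ZFSet) :
    x ∈ w.val σ ↔ ∃ i : σ.I, w.In i ∧ w.Hit (σ.c i) ∧ w.val (σ.A i) = x := by
  obtain ⟨α, A, c⟩ := σ
  simp only [World.val, ZFSet.mem_range, Subtype.exists, Name.A, Name.c]
  constructor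
  · rintro ⟨i, h, rfl⟩
    exact ⟨i, h.1, h.2, rfl⟩
  · rintro ⟨i, h1, h2, rfl⟩
    exact ⟨i, ⟨h1, h2⟩, rfl⟩

theorem World.mem_val_mk (w : World P) (α : Type) (A : α → Name P) (c : α → Set P) (x : ZFSet) :
    x ∈ w.val ⟨α, A, c⟩ ↔ ∃ i : α, w.In i ∧ w.Hit (c i) ∧ w.val (A i) = x :=
  w.mem_val ⟨α, A, c⟩ x

/-- forcing equality -/
def FEq : Name P → Name P → P → Prop
  | ⟨_, A, c⟩, ⟨_, B, d⟩, p =>
    (∀ i, ∀ q ≤ p, Below q (c i) → ∃ r ≤ q, ∃ j, Below r (d j) ∧ FEq (A i) (B j) r) ∧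
    (∀ j, ∀ q ≤ p, Below q (d j) → ∃ r ≤ q, ∃ i, Below r (c i) ∧ FEq (A i) (B j) r)

/-- forcing membership -/
def FMem (σ τ : Name P) (p : P) : Prop :=
  ∀ q ≤ p, ∃ r ≤ q, ∃ j, Below r (τ.c j) ∧ FEq σ (τ.A j) r

theorem FEq.mono {σ τ : Name P} {p q : P} (h : FEq σ τ p) (hq : q ≤ p) : FEq σ τ q := by
  obtain ⟨α, A, c⟩ := σ
  obtain ⟨β, B, d⟩ := τ
  exact ⟨fun i r hr => h.1 i r (hr.trans hq), fun i r hr => h.2 i r (hr.trans hq)⟩

theorem FEq.reg {σ τ : Name P} {p : P} (h : ∀ q ≤ p, ∃ r ≤ q, FEq σ τ r) : FEq σ τ p := by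
  obtain ⟨α, A, c⟩ := σ
  obtain ⟨β, B, d⟩ := τ
  constructor
  · intro i q hq hb
    obtain ⟨r, h1, h2⟩ := h q hq
    obtain ⟨s, h3, h4⟩ := h2.1 i r le_rfl (hb.mono h1)
    exact ⟨s, h3.trans h1, h4⟩
  · intro i q hq hb
    obtain ⟨r, h1, h2⟩ := h q hq
    obtain ⟨s, h3, h4⟩ := h2.2 i r le_rfl (hb.mono h1)
    exact ⟨s, h3.trans h1, h4⟩

theorem FMem.mono {σ τ : Name P} {p q : P} (h : FMem σ τ p) (hq : q ≤ p) : FMem σ τ q :=
  fun r hr => h r (hr.trans hq)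

theorem FMem.reg {σ τ : Name P} {p : P} (h : ∀ q ≤ p, ∃ r ≤ q, FMem σ τ r) : FMem σ τ p := by
  intro q hq
  obtain ⟨r, h1, h2⟩ := h q hq
  obtain ⟨s, h3, h4⟩ := h2 r le_rfl
  exact ⟨s, h3.trans h1, h4⟩

theorem ev_val_eq (σ τ : Name P) : ∀ᶠ w in gen P, w.val σ = w.val τ ↔ w.Frc (FEq σ τ) := by
  induction σ generalizing τ with
  | mk α A c ih =>
  obtain ⟨β, B, d⟩ := τ
  filter_upwards [ev_generic, ev_all fun i => ev_all fun j => ih i (B j),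
    ev_all fun i => ev_dense_ex fun r j => Below r (d j) ∧ FEq (A i) (B j) r,
    ev_all fun j => ev_dense_ex fun r i => Below r (c i) ∧ FEq (A i) (B j) r,
    ev_skolemG fun r i => Below r (c i) ∧ ∀ s ≤ r, ∀ j, Below s (d j) → ¬ FEq (A i) (B j) s,
    ev_skolemG fun r j => Below r (d j) ∧ ∀ s ≤ r, ∀ i, Below s (c i) → ¬ FEq (A i) (B j) s,
    ev_dense0 (fun r => FEq ⟨α, A, c⟩ ⟨β, B, d⟩ r ∨
      (∃ i, Below r (c i) ∧ ∀ s ≤ r, ∀ j, Below s (d j) → ¬ FEq (A i) (B j) s) ∨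
      (∃ j, Below r (d j) ∧ ∀ s ≤ r, ∀ i, Below s (c i) → ¬ FEq (A i) (B j) s)) fun p => by
        by_cases h : FEq ⟨α, A, c⟩ ⟨β, B, d⟩ p
        · exact ⟨p, le_rfl, Or.inl h⟩
        · rw [FEq, not_and_or] at h
          push Not at h
          rcases h with ⟨i, q, h1, h2, h3⟩ | ⟨i, q, h1, h2, h3⟩
          · exact ⟨q, h1, Or.inr (Or.inl ⟨i, h2, h3⟩)⟩
          · exact ⟨q, h1, Or.inr (Or.inr ⟨i, h2, h3⟩)⟩]
    with w hw ih h1 h2 h3 h4 ⟨r, hr, h5⟩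
  constructor
  · intro he
    rcases h5 with h5 | h5 | h5
    · exact ⟨r, hr, h5⟩
    · exfalso
      obtain ⟨i, hi, hb, hn⟩ := h3 r hr h5
      have : w.val (A i) ∈ w.val ⟨β, B, d⟩ := by
        rw [← he, w.mem_val_mk]; exact ⟨i, hi, ⟨r, hr, hb⟩, rfl⟩
      obtain ⟨j, hj, ⟨s, hs, hb'⟩, e⟩ := (w.mem_val_mk _ _ _ _).1 this
      obtain ⟨t, ht, hf⟩ := (ih i hi j hj).1 e.symm
      obtain ⟨u, hu, a1, a2⟩ := hw.dir r hr s hs
      obtain ⟨u', -, a3, a4⟩ := hw.dir u hu t ht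
      exact hn u' (a3.trans a1) j (hb'.mono (a3.trans a2)) (hf.mono a4)
    · exfalso
      obtain ⟨j, hj, hb, hn⟩ := h4 r hr h5
      have : w.val (B j) ∈ w.val ⟨α, A, c⟩ := by
        rw [he, w.mem_val_mk]; exact ⟨j, hj, ⟨r, hr, hb⟩, rfl⟩
      obtain ⟨i, hi, ⟨s, hs, hb'⟩, e⟩ := (w.mem_val_mk _ _ _ _).1 this
      obtain ⟨t, ht, hf⟩ := (ih i hi j hj).1 e
      obtain ⟨u, hu, a1, a2⟩ := hw.dir r hr s hs
      obtain ⟨u', -, a3, a4⟩ := hw.dir u hu t ht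
      exact hn u' (a3.trans a1) i (hb'.mono (a3.trans a2)) (hf.mono a4)
  · rintro ⟨p, hp, hf⟩
    ext x
    rw [w.mem_val_mk, w.mem_val_mk]
    constructor
    · rintro ⟨i, hi, ⟨s, hs, hb⟩, rfl⟩
      obtain ⟨q, hq, a1, a2⟩ := hw.dir p hp s hs
      obtain ⟨t, ht, -, j, hj, b1, b2⟩ := h1 i hi q hq fun q' hq' =>
        hf.1 i q' (hq'.trans a1) (hb.mono (hq'.trans a2))
      exact ⟨j, hj, ⟨t, ht, b1⟩, ((ih i hi j hj).2 ⟨t, ht, b2⟩).symm⟩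
    · rintro ⟨j, hj, ⟨s, hs, hb⟩, rfl⟩
      obtain ⟨q, hq, a1, a2⟩ := hw.dir p hp s hs
      obtain ⟨t, ht, -, i, hi, b1, b2⟩ := h2 j hj q hq fun q' hq' =>
        hf.2 j q' (hq'.trans a1) (hb.mono (hq'.trans a2))
      exact ⟨i, hi, ⟨t, ht, b1⟩, (ih i hi j hj).2 ⟨t, ht, b2⟩⟩

theorem ev_val_mem (σ τ : Name P) : ∀ᶠ w in gen P, w.val σ ∈ w.val τ ↔ w.Frc (FMem σ τ) := by
  filter_upwards [ev_generic, ev_all fun j => ev_val_eq σ (τ.A j),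
    ev_dense_ex fun r j => Below r (τ.c j) ∧ FEq σ (τ.A j) r] with w hw h1 h2
  rw [w.mem_val]
  constructor
  · rintro ⟨j, hj, ⟨s, hs, hb⟩, e⟩
    obtain ⟨t, ht, hf⟩ := (h1 j hj).1 e.symm
    obtain ⟨u, hu, a1, a2⟩ := hw.dir s hs t ht
    exact ⟨u, hu, fun q hq => ⟨q, le_rfl, j, hb.mono (hq.trans a1), hf.mono (hq.trans a2)⟩⟩
  · rintro ⟨p, hp, hf⟩
    obtain ⟨t, ht, -, j, hj, b1, b2⟩ := h2 p hp hf
    exact ⟨j, hj, ⟨t, ht, b1⟩, ((h1 j hj).2 ⟨t, ht, b2⟩).symm⟩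

/-- the generic extension -/
def World.M (w : World P) : Set ZFSet.{0} := {x | ∃ σ : Name P, w.In σ ∧ w.val σ = x}

theorem ev_val_mem_M (σ : Name P) : ∀ᶠ w in gen P, w.val σ ∈ w.M :=
  (ev_const σ).mono fun _ h => ⟨σ, h, rfl⟩

/-- to prove something for all elements of the extension, prove it for each name -/
theorem ev_all_M {Φ : ZFSet → World P → Prop} (h : ∀ σ : Name P, ∀ᶠ w in gen P, Φ (w.val σ) w) :
    ∀ᶠ w in gen P, ∀ x ∈ w.M, Φ x w := by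
  filter_upwards [ev_all h] with w hw x ⟨σ, h1, h2⟩
  exact h2 ▸ hw σ h1

theorem ev_trans : ∀ᶠ w in gen P, ∀ x ∈ w.M, ∀ y ∈ x, y ∈ w.M := by
  refine ev_all_M fun σ => ?_
  filter_upwards [ev_fun σ.A] with w hw y hy
  obtain ⟨i, hi, -, rfl⟩ := (w.mem_val σ y).1 hy
  exact ⟨_, hw i hi, rfl⟩

end Pool.Agent.Lib.Helper87
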