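import Pool.Agent.Lib.Helper87.Names
import Pool.Agent.Lib.Helper87.ModelDefs

/-!
The forcing relation for all formulas, the truth lemma, and the axioms of ZFC in the extension.
-/

open Filter Set FirstOrder

namespace Pool.Agent.Lib.Helper87

universe v

variable {P : Type} [Preorder P]

/-- the variable a term stands for -/
def tv {n : ℕ} : Language.graph.Term (Empty ⊕ Fin n) → Fin n
  | .var (.inr i) => i
  | .var (.inl e) => e.elim
  | .func f _ => Empty.elim f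

theorem realize_tv {M : Type*} [Language.graph.Structure M] {n : ℕ}
    (t : Language.graph.Term (Empty ⊕ Fin n)) (v : Fin n → M) :
    t.realize (Sum.elim Empty.elim v) = v (tv t) := by
  match t with
  | .var (.inr i) => rfl
  | .var (.inl e) => exact e.elim
  | .func f _ => exact Empty.elim f

/-- the forcing relation -/
def Forces : {n : ℕ} → Language.graph.BoundedFormula Empty n → (Fin n → Name P) → P → Prop
  | _, .falsum, _, _ => False
  | _, .equal t1 t2, xs, p => FEq (xs (tv t1)) (xs (tv t2)) p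
  | _, .rel .adj ts, xs, p => FMem (xs (tv (ts 0))) (xs (tv (ts 1))) p
  | _, .imp φ ψ, xs, p => ∀ q ≤ p, Forces φ xs q → Forces ψ xs q
  | _, .all φ, xs, p => ∀ σ, Forces φ (Fin.snoc xs σ) p

theorem Forces.mono {n : ℕ} {φ : Language.graph.BoundedFormula Empty n} {xs : Fin n → Name P}
    {p q : P} (h : Forces φ xs p) (hq : q ≤ p) : Forces φ xs q := by
  induction φ with
  | falsum => exact h
  | equal t1 t2 => exact FEq.mono h hq
  | rel R ts => cases R; exact FMem.mono h hq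
  | imp φ ψ _ _ => exact fun r hr => h r (hr.trans hq)
  | all φ ih => exact fun σ => ih (h σ)

theorem Forces.reg {n : ℕ} {φ : Language.graph.BoundedFormula Empty n} {xs : Fin n → Name P}
    {p : P} (h : ∀ q ≤ p, ∃ r ≤ q, Forces φ xs r) : Forces φ xs p := by
  induction φ generalizing p with
  | falsum => obtain ⟨r, -, h⟩ := h p le_rfl; exact h
  | equal t1 t2 => exact FEq.reg h
  | rel R ts => cases R; exact FMem.reg h
  | imp φ ψ _ ih =>
    intro q hq h1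
    refine ih fun r hr => ?_
    obtain ⟨s, h2, h3⟩ := h r (hr.trans hq)
    exact ⟨s, h2, h3 s le_rfl (h1.mono (h2.trans hr))⟩
  | all φ ih =>
    intro σ
    refine ih fun r hr => ?_
    obtain ⟨s, h2, h3⟩ := h r hr
    exact ⟨s, h2, h3 σ⟩

theorem ev_truth {n : ℕ} (φ : Language.graph.BoundedFormula Empty n) (xs : Fin n → Name P) :
    ∀ᶠ w in gen P, ∀ v : Fin n → w.M, (∀ i, (v i).1 = w.val (xs i)) →
      (Sat w.M φ v ↔ w.Frc (Forces φ xs)) := by
  induction φ with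
  | falsum =>
    exact Eventually.of_forall fun w v _ => ⟨fun h => h.elim, fun ⟨_, _, h⟩ => h.elim⟩
  | equal t1 t2 =>
    filter_upwards [ev_val_eq (xs (tv t1)) (xs (tv t2))] with w hw v hv
    let _ := memStr w.M
    change t1.realize (Sum.elim Empty.elim v) = t2.realize (Sum.elim Empty.elim v) ↔ _
    rw [realize_tv, realize_tv, Subtype.ext_iff, hv, hv]
    exact hw
  | rel R ts =>
    cases R
    filter_upwards [ev_val_mem (xs (tv (ts 0))) (xs (tv (ts 1)))] with w hw v hv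
    let _ := memStr w.M
    change ((ts 0).realize (Sum.elim Empty.elim v)).1 ∈
      ((ts 1).realize (Sum.elim Empty.elim v)).1 ↔ _
    rw [realize_tv, realize_tv, hv, hv]
    exact hw
  | imp φ ψ ih1 ih2 =>
    filter_upwards [ev_generic, ih1 xs, ih2 xs,
      ev_frc_not (Forces φ xs) fun p q h h' => h'.mono h] with w hw h1 h2 h3 v hv
    change (Sat w.M φ v → Sat w.M ψ v) ↔ _
    rw [h1 v hv, h2 v hv]
    constructor
    · intro h
      by_cases hφ : w.Frc (Forces φ xs)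
      · obtain ⟨p, hp, h⟩ := h hφ
        exact ⟨p, hp, fun q hq _ => h.mono hq⟩
      · obtain ⟨p, hp, h⟩ := h3.2 hφ
        exact ⟨p, hp, fun q hq h' => absurd h' (h q hq)⟩
    · rintro ⟨p, hp, h⟩ ⟨q, hq, h'⟩
      obtain ⟨r, hr, a1, a2⟩ := hw.dir p hp q hq
      exact ⟨r, hr, h r a1 (h'.mono a2)⟩
  | all φ ih =>
    filter_upwards [ev_all fun σ => ih (Fin.snoc xs σ),
      ev_frc_all (fun p σ => Forces φ (Fin.snoc xs σ) p) fun σ p q h h' => h'.mono h]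
      with w h1 h2 v hv
    change (∀ a : w.M, Sat w.M φ (Fin.snoc v a)) ↔ _
    have key : ∀ σ (h : w.In σ), Sat w.M φ (Fin.snoc v ⟨w.val σ, σ, h, rfl⟩) ↔
        w.Frc (Forces φ (Fin.snoc xs σ)) := fun σ h => h1 σ h _ fun i => by
      refine Fin.lastCases ?_ (fun i => ?_) i
      · simp
      · simp [hv]
    constructor
    · intro h
      obtain ⟨p, hp, h'⟩ := h2 fun σ hσ => (key σ hσ).1 (h _)
      exact ⟨p, hp, fun σ => Forces.reg (h' σ)⟩
    · rintro ⟨p, hp, h⟩ ⟨_, σ, hσ, rfl⟩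
      exact (key σ hσ).2 ⟨p, hp, h σ⟩

/-- names for unordered pairs -/
def upair (σ τ : Name P) : Name P := ⟨Bool, fun b => cond b σ τ, fun _ => univ⟩

theorem ev_base : ∀ᶠ w in gen P, w.Generic ∧ w.Hit (univ : Set P) ∧ (∀ b : Bool, w.In b) ∧
    (∀ n : ℕ, w.In n) := by
  filter_upwards [ev_generic, ev_hit_univ, ev_ctype Bool, ev_ctype ℕ] with w a b c d
  exact ⟨a, b, c, d⟩

theorem ev_val_upair : ∀ᶠ w in gen P, ∀ σ τ : Name P, w.val (upair σ τ) = {w.val σ, w.val τ} := by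
  filter_upwards [ev_base] with w ⟨_, h1, h2, _⟩ σ τ
  ext x
  rw [upair, w.mem_val_mk, ZFSet.mem_pair]
  constructor
  · rintro ⟨b, -, -, rfl⟩
    cases b <;> simp
  · rintro (rfl | rfl)
    exacts [⟨true, h2 _, h1, rfl⟩, ⟨false, h2 _, h1, rfl⟩]

/-- names for ordered pairs -/
def opair (σ τ : Name P) : Name P := upair (upair σ σ) (upair σ τ)

theorem ev_val_opair :
    ∀ᶠ w in gen P, ∀ σ τ : Name P, w.val (opair σ τ) = ZFSet.pair (w.val σ) (w.val τ) := by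
  filter_upwards [ev_val_upair] with w h σ τ
  rw [opair, h, h, h, ZFSet.pair]
  congr 1
  ext x
  simp

/-- names for natural numbers -/
def natName : ℕ → Name P
  | 0 => ⟨Empty, Empty.elim, Empty.elim⟩
  | n + 1 => ⟨Option (natName n).I, fun o => o.elim (natName n) (natName n).A, fun _ => univ⟩

omit [Preorder P] in
theorem natName_c (n : ℕ) (i : (natName n : Name P).I) : (natName n).c i = univ := by
  cases n with
  | zero => exact Empty.elim i
  | succ n => rfl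

instance natName_countable (n : ℕ) : Countable (natName n : Name P).I := by
  induction n with
  | zero => exact inferInstanceAs (Countable Empty)
  | succ n ih => exact inferInstanceAs (Countable (Option (natName n : Name P).I))

theorem ev_val_natName :
    ∀ᶠ w in gen P, ∀ n : ℕ, w.val (natName n : Name P) = ZFSet.mk (PSet.ofNat n) := by
  filter_upwards [ev_hit_univ, ev_call fun n => ev_ctype (natName n : Name P).I] with w h1 h2 n
  induction n with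
  | zero =>
    ext x
    rw [w.mem_val]
    exact ⟨fun ⟨i, _⟩ => Empty.elim i, fun h => absurd h (ZFSet.notMem_empty x)⟩
  | succ n ih =>
    have : ZFSet.mk (PSet.ofNat (n + 1)) =
      insert (ZFSet.mk (PSet.ofNat n)) (ZFSet.mk (PSet.ofNat n)) := rfl
    rw [this, ← ih]
    ext x
    rw [w.mem_val, ZFSet.mem_insert_iff, w.mem_val]
    constructor
    · rintro ⟨i, -, -, rfl⟩
      cases i with
      | none => exact Or.inl rfl
      | some i => exact Or.inr ⟨i, h2 n i, by rw [natName_c]; exact h1, rfl⟩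
    · rintro (rfl | ⟨i, -, -, rfl⟩)
      · exact ⟨none, h2 (n + 1) _, h1, rfl⟩
      · exact ⟨some i, h2 (n + 1) _, h1, rfl⟩

theorem mem_omega_iff {x : ZFSet.{0}} : x ∈ ZFSet.omega ↔ ∃ n, ZFSet.mk (PSet.ofNat n) = x := by
  induction x using Quotient.ind with
  | _ x =>
  change ZFSet.mk x ∈ ZFSet.mk PSet.omega ↔ _
  rw [ZFSet.mk_mem_iff]
  constructor
  · rintro ⟨n, hn⟩
    exact ⟨n.down, (ZFSet.sound hn).symm⟩
  · rintro ⟨n, hn⟩
    exact ⟨⟨n⟩, ZFSet.exact hn.symm⟩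

theorem ev_infinity : ∀ᶠ w in gen P, ZFSet.omega ∈ w.M := by
  filter_upwards [ev_base, ev_val_natName,
    ev_val_mem_M (⟨ℕ, natName, fun _ => univ⟩ : Name P)] with w ⟨_, h1, _, h2⟩ h3 h4
  convert h4
  ext x
  rw [mem_omega_iff, w.mem_val_mk]
  simp only [h3, h2, h1, true_and]

theorem ev_pair : ∀ᶠ w in gen P, ∀ x ∈ w.M, ∀ y ∈ w.M, ({x, y} : ZFSet) ∈ w.M := by
  refine ev_all_M fun σ => ev_all_M fun τ => ?_
  filter_upwards [ev_val_upair, ev_val_mem_M (upair σ τ)] with w h1 h2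
  rwa [← h1]

theorem World.Generic.hit_and {w : World P} (hw : w.Generic) {b c : Set P} :
    w.Hit {p | Below p b ∧ Below p c} ↔ w.Hit b ∧ w.Hit c := by
  rw [w.hit_iff fun p q h h' => ⟨h'.1.mono h, h'.2.mono h⟩]
  exact ⟨fun h => ⟨h.imp fun _ h => h.1, h.imp fun _ h => h.2⟩, fun h =>
    hw.frc_and (fun _ _ h h' => h'.mono h) (fun _ _ h h' => h'.mono h) h.1 h.2⟩

theorem World.Generic.hit_and' {w : World P} (hw : w.Generic) {b : Set P} {D : P → Prop}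
    (hD : ∀ p q, q ≤ p → D p → D q) :
    w.Hit {p | Below p b ∧ D p} ↔ w.Hit b ∧ w.Frc D := by
  rw [w.hit_iff fun p q h h' => ⟨h'.1.mono h, hD _ _ h h'.2⟩]
  exact ⟨fun h => ⟨h.imp fun _ h => h.1, h.imp fun _ h => h.2⟩, fun h =>
    hw.frc_and (fun _ _ h h' => h'.mono h) hD h.1 h.2⟩

/-- membership of dependent pairs in `N` -/
theorem ev_in_sigma {α : Type} (β : α → Type) :
    ∀ᶠ w in gen P, ∀ x : Σ a, β a, w.In x ↔ w.In x.1 ∧ w.In x.2 := by
  filter_upwards [ev_all fun x : Σ a, β a => (ev_const (P := P) x.1).and (ev_const x.2),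
    ev_all fun a => ev_fun fun b : β a => (⟨a, b⟩ : Σ a, β a)] with w h1 h2 x
  exact ⟨h1 x, fun h => h2 _ h.1 _ h.2⟩

theorem ev_in_prod (α β : Type) :
    ∀ᶠ w in gen P, ∀ x : α × β, w.In x ↔ w.In x.1 ∧ w.In x.2 := by
  filter_upwards [ev_all fun x : α × β => (ev_const (P := P) x.1).and (ev_const x.2),
    ev_fun₂ fun (a : α) (b : β) => (a, b)] with w h1 h2 x
  exact ⟨h1 x, fun h => h2 _ h.1 _ h.2⟩

theorem ev_in_subtype {α : Type} (p : α → Prop) :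
    ∀ᶠ w in gen P, ∀ x : {a // p a}, w.In x ↔ w.In x.1 := by
  filter_upwards [ev_fun fun x : {a // p a} => x.1,
    ev_all fun a => ev_dimp fun h : p a => ev_const (P := P) (⟨a, h⟩ : {a // p a})] with w h1 h2 x
  exact ⟨h1 x, fun h => h2 _ h x.2⟩

theorem ev_in_sum (α β : Type) :
    ∀ᶠ w in gen P, (∀ a : α, w.In (Sum.inl a : α ⊕ β) ↔ w.In a) ∧
      ∀ b : β, w.In (Sum.inr b : α ⊕ β) ↔ w.In b := by
  filter_upwards [ev_fun (Sum.inl : α → α ⊕ β), ev_fun (Sum.inr : β → α ⊕ β),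
    ev_all (Φ := fun (x : α ⊕ β) (w : World P) => (∀ a, x = .inl a → w.In a) ∧
      ∀ b, x = .inr b → w.In b) fun x => by
        cases x with
        | inl a => exact (ev_const a).mono fun w h => ⟨fun _ e => Sum.inl.inj e ▸ h, by simp⟩
        | inr a => exact (ev_const a).mono fun w h => ⟨by simp, fun _ e => Sum.inr.inj e ▸ h⟩]
    with w h1 h2 h3
  exact ⟨fun a => ⟨fun h => (h3 _ h).1 a rfl, h1 a⟩, fun a => ⟨fun h => (h3 _ h).2 a rfl, h2 a⟩⟩

theorem ev_union : ∀ᶠ w in gen P, ∀ x ∈ w.M, ZFSet.sUnion x ∈ w.M := by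
  refine ev_all_M fun σ => ?_
  filter_upwards [ev_generic, ev_in_sigma fun i => (σ.A i).I,
    ev_val_mem_M (⟨Σ i : σ.I, (σ.A i).I, fun x => (σ.A x.1).A x.2,
      fun x => {p | Below p (σ.c x.1) ∧ Below p ((σ.A x.1).c x.2)}⟩ : Name P)] with w hw h1 h2
  convert h2
  ext x
  simp only [ZFSet.mem_sUnion, w.mem_val_mk, hw.hit_and, h1]
  constructor
  · rintro ⟨z, hz, hx⟩
    obtain ⟨i, a1, a2, rfl⟩ := (w.mem_val _ _).1 hz
    obtain ⟨j, a3, a4, rfl⟩ := (w.mem_val _ _).1 hx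
    exact ⟨⟨i, j⟩, ⟨a1, a3⟩, ⟨a2, a4⟩, rfl⟩
  · rintro ⟨⟨i, j⟩, ⟨a1, a3⟩, ⟨a2, a4⟩, rfl⟩
    exact ⟨_, (w.mem_val _ _).2 ⟨i, a1, a2, rfl⟩, (w.mem_val _ _).2 ⟨j, a3, a4, rfl⟩⟩

theorem ev_power : ∀ᶠ w in gen P, ∀ x ∈ w.M, ∃ y ∈ w.M, ∀ z ∈ w.M, z ⊆ x → z ∈ y := by
  refine ev_all_M fun σ => ?_
  let π : Name P := ⟨σ.I → Set P, fun c => ⟨σ.I, σ.A, c⟩, fun _ => univ⟩
  have : ∀ᶠ w in gen P, ∀ z ∈ w.M, z ⊆ w.val σ → z ∈ w.val π := by
    refine ev_all_M fun ρ => ?_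
    filter_upwards [ev_hit_univ, ev_const fun i => {p | FMem (σ.A i) ρ p},
      ev_all fun i => ev_val_mem (σ.A i) ρ] with w h1 h2 h3 hs
    refine (w.mem_val_mk _ _ _ _).2 ⟨_, h2, h1, ?_⟩
    ext x
    rw [w.mem_val_mk]
    constructor
    · rintro ⟨i, a1, a2, rfl⟩
      rw [w.hit_iff fun p q h h' => h'.mono h] at a2
      exact (h3 i a1).2 a2
    · intro hx
      obtain ⟨i, a1, a2, rfl⟩ := (w.mem_val _ _).1 (hs hx)
      refine ⟨i, a1, ?_, rfl⟩
      rw [w.hit_iff fun p q h h' => h'.mono h]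
      exact (h3 i a1).1 hx
  filter_upwards [this, ev_val_mem_M π] with w h1 h2
  exact ⟨_, h2, h1⟩

instance : Countable Language.graph.Symbols := by
  have h1 : Countable (Σ l, Language.graph.Functions l) :=
    inferInstanceAs (Countable (Σ _ : ℕ, Empty))
  have h2 : Countable (Σ l, Language.graph.Relations l) := inferInstance
  exact inferInstanceAs (Countable ((Σ l, Language.graph.Functions l) ⊕
    (Σ l, Language.graph.Relations l)))

instance (n : ℕ) : Countable (Language.graph.BoundedFormula Empty n) :=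
  (sigma_mk_injective (β := fun n => Language.graph.BoundedFormula Empty n) (i := n)).countable

/-- reduce a statement about tuples of the extension to tuples of names -/
theorem ev_all_tuple {n : ℕ} {Φ : (w : World P) → (Fin n → w.M) → Prop}
    (h : ∀ xs : Fin n → Name P, ∀ᶠ w in gen P, ∀ v : Fin n → w.M,
      (∀ i, (v i).1 = w.val (xs i)) → Φ w v) : ∀ᶠ w in gen P, ∀ v, Φ w v := by
  filter_upwards [ev_all_fin h] with w hw v
  choose xs h1 h2 using fun i => (v i).2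
  exact hw xs h1 v fun i => (h2 i).symm

theorem snoc_val {w : World P} {n : ℕ} {v : Fin n → w.M} {xs : Fin n → Name P}
    (hv : ∀ i, (v i).1 = w.val (xs i)) {x : w.M} {σ : Name P} (h : x.1 = w.val σ) (i : Fin (n + 1)) :
    ((Fin.snoc v x : Fin (n + 1) → w.M) i).1 = w.val ((Fin.snoc xs σ : Fin (n + 1) → Name P) i) := by
  refine Fin.lastCases ?_ (fun i => ?_) i
  · simp [h]
  · simp [hv]

theorem ev_separation : ∀ᶠ w in gen P, ∀ (n : ℕ) (φ : Language.graph.BoundedFormula Empty (n + 1))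
    (v : Fin n → w.M) (a : w.M), ∃ b : w.M, ∀ x : w.M, x.1 ∈ b.1 ↔
      x.1 ∈ a.1 ∧ Sat w.M φ (Fin.snoc v x) := by
  refine ev_call fun n => ev_call fun φ => ev_all_tuple fun xs => ?_
  have : ∀ᶠ w in gen P, ∀ a ∈ w.M, ∀ v : Fin n → w.M, (∀ i, (v i).1 = w.val (xs i)) →
      ∃ b : w.M, ∀ x : w.M, x.1 ∈ b.1 ↔ x.1 ∈ a ∧ Sat w.M φ (Fin.snoc v x) := by
    refine ev_all_M fun σ => ?_
    filter_upwards [ev_generic, ev_all fun i => ev_truth φ (Fin.snoc xs (σ.A i)),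
      ev_val_mem_M (⟨σ.I, σ.A, fun i =>
        {p | Below p (σ.c i) ∧ Forces φ (Fin.snoc xs (σ.A i)) p}⟩ : Name P)] with w hw h1 h2 v hv
    refine ⟨⟨_, h2⟩, fun x => ?_⟩
    simp only [w.mem_val_mk, w.mem_val σ, hw.hit_and' fun p q h h' => Forces.mono h' h]
    constructor
    · rintro ⟨i, a1, ⟨a2, a3⟩, a4⟩
      exact ⟨⟨i, a1, a2, a4⟩, (h1 i a1 _ (snoc_val hv a4.symm)).2 a3⟩
    · rintro ⟨⟨i, a1, a2, a4⟩, a3⟩
      exact ⟨i, a1, ⟨a2, (h1 i a1 _ (snoc_val hv a4.symm)).1 a3⟩, a4⟩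
  filter_upwards [this] with w hw v hv a using hw a.1 a.2 v hv

theorem ev_collection : ∀ᶠ w in gen P, ∀ (n : ℕ) (φ : Language.graph.BoundedFormula Empty (n + 2))
    (v : Fin n → w.M) (a : w.M), ∃ b : w.M, ∀ x : w.M, x.1 ∈ a.1 →
      (∃ y : w.M, Sat w.M φ (Fin.snoc (Fin.snoc v x) y)) →
        ∃ y : w.M, y.1 ∈ b.1 ∧ Sat w.M φ (Fin.snoc (Fin.snoc v x) y) := by
  refine ev_call fun n => ev_call fun φ => ev_all_tuple fun xs => ?_
  have : ∀ᶠ w in gen P, ∀ a ∈ w.M, ∀ v : Fin n → w.M, (∀ i, (v i).1 = w.val (xs i)) →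
      ∃ b : w.M, ∀ x : w.M, x.1 ∈ a → (∃ y : w.M, Sat w.M φ (Fin.snoc (Fin.snoc v x) y)) →
        ∃ y : w.M, y.1 ∈ b.1 ∧ Sat w.M φ (Fin.snoc (Fin.snoc v x) y) := by
    refine ev_all_M fun σ => ?_
    have hch : ∀ x : σ.I × P, ∃ τ : Name P,
        (∃ ρ, Forces φ (Fin.snoc (Fin.snoc xs (σ.A x.1)) ρ) x.2) →
          Forces φ (Fin.snoc (Fin.snoc xs (σ.A x.1)) τ) x.2 := fun x => by
      by_cases h : ∃ ρ, Forces φ (Fin.snoc (Fin.snoc xs (σ.A x.1)) ρ) x.2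
      · obtain ⟨ρ, h⟩ := h
        exact ⟨ρ, fun _ => h⟩
      · exact ⟨σ, fun h' => absurd h' h⟩
    choose τ hτ using hch
    filter_upwards [ev_generic, ev_hit_univ, ev_in_prod σ.I P, ev_fun τ,
      ev_all fun i => ev_all fun ρ => ev_truth φ (Fin.snoc (Fin.snoc xs (σ.A i)) ρ),
      ev_val_mem_M (⟨σ.I × P, τ, fun _ => univ⟩ : Name P)] with w hw h0 h3 h4 h1 h2 v hv
    refine ⟨⟨_, h2⟩, fun x hx ⟨⟨_, ρ, hρ, rfl⟩, hy⟩ => ?_⟩
    obtain ⟨i, a1, -, a2⟩ := (w.mem_val _ _).1 hx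
    obtain ⟨p, hp, h5⟩ := (h1 i a1 ρ hρ _ (snoc_val (snoc_val hv a2.symm) rfl)).1 hy
    have h6 : w.In (i, p) := (h3 (i, p)).2 ⟨a1, hw.mem p hp⟩
    refine ⟨⟨_, τ (i, p), h4 _ h6, rfl⟩, (w.mem_val_mk _ _ _ _).2 ⟨(i, p), h6, h0, rfl⟩, ?_⟩
    exact (h1 i a1 _ (h4 _ h6) _ (snoc_val (snoc_val hv a2.symm) rfl)).2
      ⟨p, hp, hτ (i, p) ⟨ρ, h5⟩⟩
  filter_upwards [this] with w hw v hv a using hw a.1 a.2 v hv

/-- least witnesses: the set of `a` in `N` which are `r`-minimal among the forced elements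
equivalent to `a` -/
theorem ev_least {T : Type} (r : T → T → Prop) (R : P → T → Prop)
    (hR : ∀ a p q, q ≤ p → R p a → R q a) (a : T) :
    ∀ᶠ w in gen P, w.Hit {p | R p a ∧ ∀ b, ∀ q ≤ p, ¬ (r b a ∧ R q b)} ↔
      (w.Frc fun p => R p a) ∧ ∀ b, w.In b → r b a → ¬ w.Frc fun p => R p b := by
  filter_upwards [ev_generic, ev_frc_all_not (fun p b => r b a ∧ R p b)
    fun b p q h h' => ⟨h'.1, hR b p q h h'.2⟩] with w hw h1
  rw [w.hit_iff fun p q h h' => ⟨hR _ _ _ h h'.1, fun b s hs => h'.2 b s (hs.trans h)⟩]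
  constructor
  · intro h
    refine ⟨h.imp fun _ h => h.1, fun b hb hr h' => ?_⟩
    exact h1.1 (h.imp fun _ h => h.2) b hb (h'.imp fun _ h => ⟨hr, h⟩)
  · rintro ⟨h2, h3⟩
    refine hw.frc_and (hR a) (fun p q h h' b s hs => h' b s (hs.trans h)) h2 (h1.2 ?_)
    rintro b hb ⟨p, hp, h4, h5⟩
    exact h3 b hb h4 ⟨p, hp, h5⟩

theorem ev_choice : ∀ᶠ w in gen P, ∀ a ∈ w.M, (∀ x ∈ a, x ≠ ∅) →
    (∀ x ∈ a, ∀ y ∈ a, x ≠ y → x ∩ y = ∅) → ∃ c ∈ w.M, ∀ x ∈ a, ∃! z, z ∈ x ∧ z ∈ c := by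
  refine ev_all_M fun σ => ?_
  let T := Σ i : σ.I, (σ.A i).I
  let R : T → P → T → Prop := fun a p b =>
    Below p (σ.c b.1) ∧ Below p ((σ.A b.1).c b.2) ∧ FEq (σ.A b.1) (σ.A a.1) p
  have hR : ∀ a b p q, q ≤ p → R a p b → R a q b := fun a b p q h h' =>
    ⟨h'.1.mono h, h'.2.1.mono h, h'.2.2.mono h⟩
  filter_upwards [ev_generic, ev_in_sigma fun i => (σ.A i).I,
    ev_all fun a : T => ev_least WellOrderingRel (R a) (hR a) a,
    ev_all fun i => ev_all fun j => ev_val_eq (σ.A i) (σ.A j),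
    ev_val_mem_M (⟨T, fun x => (σ.A x.1).A x.2,
      fun a => {p | R a p a ∧ ∀ b, ∀ q ≤ p, ¬ (WellOrderingRel b a ∧ R a q b)}⟩ : Name P)]
    with w hw h1 h2 h3 h4 hne hdisj
  have hRR : ∀ a b : T, w.In a → w.In b → ((w.Frc fun p => R a p b) ↔
      w.Hit (σ.c b.1) ∧ w.Hit ((σ.A b.1).c b.2) ∧ w.val (σ.A b.1) = w.val (σ.A a.1)) := by
    intro a b ha hb
    rw [h3 _ ((h1 b).1 hb).1 _ ((h1 a).1 ha).1]
    constructor
    · intro h
      exact ⟨h.imp fun _ h => h.1, h.imp fun _ h => h.2.1, h.imp fun _ h => h.2.2⟩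
    · rintro ⟨a1, a2, a3⟩
      exact hw.frc_and (fun _ _ h h' => h'.mono h)
        (fun _ _ h h' => ⟨h'.1.mono h, h'.2.mono h⟩) a1
        (hw.frc_and (fun _ _ h h' => h'.mono h) (fun _ _ h h' => h'.mono h) a2 a3)
  refine ⟨_, h4, fun x hx => ?_⟩
  let S : Set T := {b | w.In b ∧ w.Hit (σ.c b.1) ∧ w.Hit ((σ.A b.1).c b.2) ∧ w.val (σ.A b.1) = x}
  have hS : S.Nonempty := by
    obtain ⟨i, a1, a2, rfl⟩ := (w.mem_val _ _).1 hx
    obtain ⟨z, hz⟩ := (ZFSet.eq_empty_or_nonempty _).resolve_left (hne _ hx)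
    obtain ⟨j, a3, a4, rfl⟩ := (w.mem_val _ _).1 hz
    exact ⟨⟨i, j⟩, (h1 _).2 ⟨a1, a3⟩, a2, a4, rfl⟩
  obtain ⟨a, ⟨a1, a2, a3, a4⟩, hmin⟩ := (IsWellFounded.wf (r := WellOrderingRel)).has_min S hS
  refine ⟨w.val ((σ.A a.1).A a.2), ⟨?_, ?_⟩, ?_⟩
  · rw [← a4, w.mem_val]
    exact ⟨a.2, ((h1 a).1 a1).2, a3, rfl⟩
  · rw [w.mem_val_mk]
    refine ⟨a, a1, (h2 a a1).2 ⟨(hRR a a a1 a1).2 ⟨a2, a3, rfl⟩, fun b hb hr h => ?_⟩, rfl⟩
    obtain ⟨b1, b2, b3⟩ := (hRR a b a1 hb).1 h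
    exact hmin b ⟨hb, b1, b2, b3.trans a4⟩ hr
  · rintro z ⟨hz1, hz2⟩
    obtain ⟨b, hb, h5, rfl⟩ := (w.mem_val_mk _ _ _ _).1 hz2
    obtain ⟨h6, h7⟩ := (h2 b hb).1 h5
    obtain ⟨b1, b2, -⟩ := (hRR b b hb hb).1 h6
    have e : w.val (σ.A b.1) = x := by
      by_contra hne'
      have := hdisj _ ((w.mem_val _ _).2 ⟨b.1, ((h1 b).1 hb).1, b1, rfl⟩) x hx hne'
      have h8 : w.val ((σ.A b.1).A b.2) ∈ w.val (σ.A b.1) ∩ x :=
        ZFSet.mem_inter.2 ⟨(w.mem_val _ _).2 ⟨b.2, ((h1 b).1 hb).2, b2, rfl⟩, hz1⟩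
      rw [this] at h8
      exact ZFSet.notMem_empty _ h8
    rcases trichotomous_of WellOrderingRel a b with h | h | h
    · exact absurd ((hRR b a hb a1).2 ⟨a2, a3, a4.trans e.symm⟩) (h7 a a1 h)
    · rw [h]
    · exact absurd h (hmin b ⟨hb, b1, b2, e⟩)

theorem ev_zfc : ∀ᶠ w in gen P, TransModelZFC w.M := by
  filter_upwards [ev_trans, ev_pair, ev_union, ev_infinity, ev_power, ev_separation,
    ev_collection, ev_choice] with w h1 h2 h3 h4 h5 h6 h7 h8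
  refine ⟨h1, h2, h3, h4, h5, h6, fun n φ v a h => ?_, h8⟩
  obtain ⟨b, hb⟩ := h7 n φ v a
  exact ⟨b, fun x hx => hb x hx (h x hx).exists⟩

end Pool.Agent.Lib.Helper87
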